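import Pool.Agent.Y782.UG.Stm

set_option autoImplicit false

open MeasureTheory ProbabilityTheory Filter Topology
open scoped ENNReal BigOperators

namespace Pool.Agent.Y523.UG
open Pool.Agent.Y782.UG

/-- UG-LAW: law of the coded tree and size biasing. -/
theorem law (h : S_DEC) : S_LAW := by
  intro P hfin hP0 hP1 Ω _ _ N hNm hind hroot hother
  -- a bound for the support
  obtain ⟨Δ, hΔ1, hΔ⟩ : ∃ Δ : ℕ, 1 ≤ Δ ∧ ∀ k, Δ < k → P k = 0 := by
    obtain ⟨b, hb⟩ := hfin.bddAbove
    refine ⟨max b 1, le_max_right _ _, fun k hk => ?_⟩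
    by_contra hne
    have h1 : k ∈ P.support := (PMF.mem_support_iff _ _).2 hne
    have h2 := hb h1
    have h3 := le_max_left b 1
    omega
  set mb : ℝ≥0∞ := ∑' j : ℕ, (j : ENNReal) * P j with hmb
  have hmbsum : mb = ∑ j ∈ Finset.range (Δ + 1), (j : ENNReal) * P j := by
    rw [hmb]
    refine tsum_eq_sum (fun j hj => ?_)
    rw [Finset.mem_range] at hj
    rw [hΔ j (by omega), mul_zero]
  have hmbtop : mb ≠ ⊤ := by
    rw [hmbsum]
    refine (ENNReal.sum_lt_top.2 (fun j _ => ?_)).ne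
    exact ENNReal.mul_lt_top (ENNReal.natCast_lt_top j) (lt_of_le_of_lt (P.coe_le_one j) ENNReal.one_lt_top)
  have hmbpos : mb ≠ 0 := by
    intro h0
    have h1 : ∀ j : ℕ, (j : ENNReal) * P j = 0 := by
      rw [hmb, ENNReal.tsum_eq_zero] at h0
      exact h0
    have h2 : ∀ j, P j = 0 := by
      intro j
      rcases Nat.eq_zero_or_pos j with hj | hj
      · rw [hj]; exact hP0
      · rcases mul_eq_zero.1 (h1 j) with h3 | h3
        · exact absurd (by exact_mod_cast h3) hj.ne'
        · exact h3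
    have h3 := P.tsum_coe
    simp [h2] at h3
  -- everything is bounded by Δ
  have hae : ∀ w, ∀ᵐ ω ∂(volume : Measure Ω), N w ω ≤ Δ := by
    intro w
    have h1 : ∀ k : ℕ, Δ < k → (volume : Measure Ω) {ω | N w ω = k} = 0 := by
      intro k hk
      by_cases hw : w = []
      · rw [hw, hroot k, hΔ k hk]
      · rw [hother w hw k, hΔ (k + 1) (by omega)]
        simp
    rw [ae_iff]
    have h2 : {ω | ¬ N w ω ≤ Δ} ⊆ ⋃ k : ℕ, (if Δ < k then {ω | N w ω = k} else ∅) := by
      intro ω hω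
      have hω : ¬ N w ω ≤ Δ := hω
      rw [not_le] at hω
      refine Set.mem_iUnion.2 ⟨N w ω, ?_⟩
      rw [if_pos hω]
      rfl
    refine measure_mono_null h2 (measure_iUnion_null (fun k => ?_))
    by_cases hk : Δ < k
    · rw [if_pos hk]; exact h1 k hk
    · rw [if_neg hk]; exact measure_empty
  have hcapm : Measurable (cap Δ) := measurable_of_countable _
  have hcm : ∀ w, Measurable (fun ω => cap Δ (N w ω)) := fun w => hcapm.comp (hNm w)
  have hcapv : ∀ w, ∀ᵐ ω ∂(volume : Measure Ω), ((cap Δ (N w ω) : Fin (Δ + 1)) : ℕ) = N w ω := by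
    intro w
    filter_upwards [hae w] with ω hω
    simp only [cap]
    exact min_eq_left hω
  -- masses
  have hmass : ∀ (w : List ℕ) (S : Set ℕ),
      (Measure.map (fun ω => cap Δ (N w ω)) (volume : Measure Ω)) {k | (k : ℕ) ∈ S}
        = (volume : Measure Ω) {ω | N w ω ∈ S} := by
    intro w S
    rw [Measure.map_apply (hcm w) (Set.toFinite _).measurableSet]
    refine measure_congr ?_
    filter_upwards [hcapv w] with ω hω
    apply propext
    show ((cap Δ (N w ω) : Fin (Δ + 1)) : ℕ) ∈ S ↔ N w ω ∈ S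
    rw [hω]
  have hsing : ∀ (w : List ℕ) (k : Fin (Δ + 1)),
      (Measure.map (fun ω => cap Δ (N w ω)) (volume : Measure Ω)) {k}
        = (volume : Measure Ω) {ω | N w ω = (k : ℕ)} := by
    intro w k
    have h1 := hmass w {(k : ℕ)}
    have h2 : {j : Fin (Δ + 1) | (j : ℕ) ∈ ({(k : ℕ)} : Set ℕ)} = {k} := by
      ext j
      simp [Fin.ext_iff]
    rw [h2] at h1
    exact h1
  let p : Measure (Fin (Δ + 1)) := Measure.map (fun ω => cap Δ (N [] ω)) (volume : Measure Ω)
  let ph : Measure (Fin (Δ + 1)) := Measure.map (fun ω => cap Δ (N [0] ω)) (volume : Measure Ω)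
  have hpp : IsProbabilityMeasure p := Measure.isProbabilityMeasure_map (hcm []).aemeasurable
  have hph : IsProbabilityMeasure ph := Measure.isProbabilityMeasure_map (hcm [0]).aemeasurable
  have hlw : ∀ w, Measure.map (fun ω => cap Δ (N w ω)) (volume : Measure Ω) = lw p ph w := by
    intro w
    cases w with
    | nil => rfl
    | cons a w =>
      show Measure.map (fun ω => cap Δ (N (a :: w) ω)) (volume : Measure Ω) = ph
      refine Measure.ext_of_singleton (fun k => ?_)
      rw [hsing, hsing, hother (a :: w) (by simp), hother [0] (by simp)]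
  refine ⟨Δ, p, ph, hpp, hph, mb, ⟨?_, ?_, hmbpos, hmbtop, ?_⟩, ae_all_iff.2 hae, ?_⟩
  · have h1 := hmass [] {k | k < 2}
    show p {k | (k : ℕ) ∈ {k : ℕ | k < 2}} = 0
    rw [h1]
    have h2 : {ω | N [] ω ∈ {k : ℕ | k < 2}} ⊆ {ω | N [] ω = 0} ∪ {ω | N [] ω = 1} := by
      intro ω hω
      have h3 : N [] ω < 2 := hω
      rcases Nat.lt_succ_iff_lt_or_eq.1 h3 with h4 | h4
      · left; show N [] ω = 0; omega
      · right; exact h4
    refine measure_mono_null h2 (measure_union_null ?_ ?_)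
    · rw [hroot 0, hP0]
    · rw [hroot 1, hP1]
  · have h1 := hmass [0] {k | k < 1}
    show ph {k | (k : ℕ) ∈ {k : ℕ | k < 1}} = 0
    rw [h1]
    have h2 : {ω | N [0] ω ∈ {k : ℕ | k < 1}} ⊆ {ω | N [0] ω = 0} := by
      intro ω hω
      have h3 : N [0] ω < 1 := hω
      show N [0] ω = 0
      omega
    refine measure_mono_null h2 ?_
    rw [hother [0] (by simp) 0]
    simp [hP1]
  · intro F
    rw [lintegral_fintype, lintegral_fintype]
    have e1 : ∀ k : Fin (Δ + 1), p {k} = P (k : ℕ) := fun k => by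
      rw [← hroot (k : ℕ)]; exact hsing [] k
    have e2 : ∀ k : Fin (Δ + 1), ph {k} = (((k : ℕ) : ENNReal) + 1) * P ((k : ℕ) + 1) / mb :=
      fun k => by
        rw [← hother [0] (by simp) (k : ℕ)]; exact hsing [0] k
    simp_rw [e1, e2]
    rw [Fin.sum_univ_eq_sum_range (fun k => ((k : ℕ) : ℝ≥0∞) * F (k - 1) * P k) (Δ + 1),
      Fin.sum_univ_eq_sum_range
        (fun k => F k * ((((k : ℕ) : ENNReal) + 1) * P (k + 1) / mb)) (Δ + 1)]
    rw [Finset.sum_range_succ', Finset.mul_sum, Finset.sum_range_succ, hΔ (Δ + 1) (by omega)]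
    simp only [Nat.cast_zero, zero_mul, mul_zero, add_zero, ENNReal.zero_div, Nat.add_sub_cancel,
      Nat.cast_add, Nat.cast_one]
    refine Finset.sum_congr rfl (fun k _ => ?_)
    have e3 : mb * (((k : ENNReal) + 1) * P (k + 1) / mb) = ((k : ENNReal) + 1) * P (k + 1) :=
      ENNReal.mul_div_cancel hmbpos hmbtop
    calc ((k : ENNReal) + 1) * F k * P (k + 1) = F k * (((k : ENNReal) + 1) * P (k + 1)) := by ring
      _ = F k * (mb * (((k : ENNReal) + 1) * P (k + 1) / mb)) := by rw [e3]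
      _ = mb * (F k * (((k : ENNReal) + 1) * P (k + 1) / mb)) := by ring
  · have hI : iIndepFun (fun w ω => cap Δ (N w ω)) (volume : Measure Ω) :=
      hind.comp (fun _ => cap Δ) (fun _ => hcapm)
    rw [hI.map_fun_eq_infinitePi_map hcm]
    rw [← (h Δ p ph).1]
    congr 1
    funext w
    exact hlw w

end Pool.Agent.Y523.UG
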