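import Pool.Agent.Y782.UG.Stm

set_option autoImplicit false

open MeasureTheory ProbabilityTheory Filter Topology
open scoped ENNReal BigOperators

namespace Pool.Agent.Y523.UG
open Pool.Agent.Y782.UG

lemma ae_mem_Icc {m : Measure ℝ} {R : ℝ} (h : m (Set.Icc (-R) R)ᶜ = 0) :
    ∀ᵐ x ∂m, x ∈ Set.Icc (-R) R := by
  rw [ae_iff]; exact h

lemma cont_bdd (f : ℝ → ℝ) (hf : Continuous f) (R : ℝ) :
    ∃ C : ℝ, 0 ≤ C ∧ ∀ x ∈ Set.Icc (-R) R, ‖f x‖ ≤ C := by
  obtain ⟨C, hC⟩ := isCompact_Icc.exists_bound_of_continuousOn (s := Set.Icc (-R) R)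
    hf.continuousOn
  exact ⟨max C 0, le_max_right _ _, fun x hx => (hC x hx).trans (le_max_left _ _)⟩

lemma cont_int (m : Measure ℝ) [IsProbabilityMeasure m] {R : ℝ} (h : m (Set.Icc (-R) R)ᶜ = 0)
    (f : ℝ → ℝ) (hf : Continuous f) : Integrable f m := by
  obtain ⟨C, _, hC⟩ := cont_bdd f hf R
  refine Integrable.of_bound hf.aestronglyMeasurable C ?_
  filter_upwards [ae_mem_Icc h] with x hx
  exact hC x hx

lemma int_bdd (m : Measure ℝ) [IsProbabilityMeasure m] {R C : ℝ} (h : m (Set.Icc (-R) R)ᶜ = 0)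
    (f : ℝ → ℝ) (hC : ∀ x ∈ Set.Icc (-R) R, ‖f x‖ ≤ C) : ‖∫ x, f x ∂m‖ ≤ C := by
  have h1 : ‖∫ x, f x ∂m‖ ≤ C * m.real Set.univ := by
    refine norm_integral_le_of_norm_le_const ?_
    filter_upwards [ae_mem_Icc h] with x hx
    exact hC x hx
  simpa using h1

lemma int_poly (m : Measure ℝ) [IsProbabilityMeasure m] {R : ℝ} (h : m (Set.Icc (-R) R)ᶜ = 0)
    (p : Polynomial ℝ) :
    ∫ x, p.eval x ∂m = ∑ i ∈ Finset.range (p.natDegree + 1), p.coeff i * ∫ x, x ^ i ∂m := by
  simp_rw [Polynomial.eval_eq_sum_range]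
  rw [integral_finset_sum]
  · refine Finset.sum_congr rfl (fun i _ => ?_)
    rw [integral_const_mul]
  · intro i _
    exact (cont_int m h (fun x => x ^ i) (continuous_pow i)).const_mul _

/-- polynomial approximation of a continuous function -/
lemma exists_approx (f : ℝ → ℝ) (hf : Continuous f) (R : ℝ) :
    ∃ p : ℕ → Polynomial ℝ, ∀ n, ∀ x ∈ Set.Icc (-R) R, |(p n).eval x - f x| ≤ 1 / ((n : ℝ) + 1) := by
  have h : ∀ n : ℕ, ∃ p : Polynomial ℝ, ∀ x ∈ Set.Icc (-R) R, |p.eval x - f x| ≤ 1 / ((n : ℝ) + 1) := by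
    intro n
    obtain ⟨p, hp⟩ := exists_polynomial_near_of_continuousOn (-R) R f hf.continuousOn
      (1 / ((n : ℝ) + 1)) (by positivity)
    exact ⟨p, fun x hx => (hp x hx).le⟩
  choose p hp using h
  exact ⟨p, hp⟩

lemma tendsto_approx (f : ℝ → ℝ) (hf : Continuous f) {R R1 : ℝ} (hR : R ≤ R1)
    (p : ℕ → Polynomial ℝ)
    (hp : ∀ n, ∀ x ∈ Set.Icc (-R1) R1, |(p n).eval x - f x| ≤ 1 / ((n : ℝ) + 1))
    (m : Measure ℝ) [IsProbabilityMeasure m] (h : m (Set.Icc (-R) R)ᶜ = 0) :
    Tendsto (fun n => ∫ x, (p n).eval x ∂m) atTop (𝓝 (∫ x, f x ∂m)) := by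
  rw [tendsto_iff_norm_sub_tendsto_zero]
  refine squeeze_zero (fun n => norm_nonneg _) (fun n => ?_) tendsto_one_div_add_atTop_nhds_zero_nat
  rw [← integral_sub (cont_int m h _ (p n).continuous) (cont_int m h f hf)]
  refine int_bdd m h (fun x => (p n).eval x - f x) (fun x hx => ?_)
  exact hp n x ⟨by linarith [hx.1], by linarith [hx.2]⟩

lemma tendsto_bump (m : Measure ℝ) [IsProbabilityMeasure m] (lam : ℝ) :
    Tendsto (fun n : ℕ => ∫ x, 1 / (1 + (n : ℝ) * (x - lam) ^ 2) ∂m) atTop (𝓝 (m.real {lam})) := by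
  have h1 : m.real {lam} = ∫ x, Set.indicator {lam} (1 : ℝ → ℝ) x ∂m :=
    (integral_indicator_one (measurableSet_singleton lam)).symm
  rw [h1]
  refine tendsto_integral_of_dominated_convergence (fun _ => (1 : ℝ)) (fun n => ?_)
    (integrable_const 1) (fun n => ?_) ?_
  · refine Continuous.aestronglyMeasurable ?_
    refine Continuous.div continuous_const (by fun_prop) (fun x => ?_)
    positivity
  · refine Eventually.of_forall (fun x => ?_)
    rw [Real.norm_of_nonneg (by positivity)]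
    rw [div_le_one (by positivity)]
    have : 0 ≤ (n : ℝ) * (x - lam) ^ 2 := by positivity
    linarith
  · refine Eventually.of_forall (fun x => ?_)
    by_cases hx : x = lam
    · subst hx
      simp
    · have h2 : Set.indicator {lam} (1 : ℝ → ℝ) x = 0 := by
        rw [Set.indicator_of_notMem]
        simpa using hx
      rw [h2]
      have h3 : 0 < (x - lam) ^ 2 := by
        have : x - lam ≠ 0 := sub_ne_zero.2 hx
        positivity
      refine tendsto_const_nhds.div_atTop ?_
      exact tendsto_atTop_add_const_left _ _ (tendsto_natCast_atTop_atTop.atTop_mul_const h3)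

/-- UG-WEI -/
theorem wei : S_WEI := by
  intro Ω _ μ R hμ hsupp hmeas
  haveI := hμ
  have hpm : ∀ p : Polynomial ℝ, Measurable (fun t => ∫ x, p.eval x ∂(μ t)) := by
    intro p
    have h1 : (fun t => ∫ x, p.eval x ∂(μ t)) =
        fun t => ∑ i ∈ Finset.range (p.natDegree + 1), p.coeff i * ∫ x, x ^ i ∂(μ t) := by
      funext t
      exact int_poly (μ t) (hsupp t) p
    rw [h1]
    exact Finset.measurable_fun_sum _ (fun i _ => (hmeas i).const_mul _)
  have hcm : ∀ f : ℝ → ℝ, Continuous f → Measurable (fun t => ∫ x, f x ∂(μ t)) := by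
    intro f hf
    obtain ⟨p, hp⟩ := exists_approx f hf R
    refine measurable_of_tendsto_metrizable (fun n => hpm (p n)) ?_
    rw [tendsto_pi_nhds]
    intro t
    exact tendsto_approx f hf le_rfl p hp (μ t) (hsupp t)
  refine ⟨fun f hf _ => hcm f hf, ?_⟩
  intro P _ ν _ hν hmom lam
  obtain ⟨R', hR'⟩ := hν
  have hint : ∀ f : ℝ → ℝ, Continuous f → Integrable (fun t => ∫ x, f x ∂(μ t)) P := by
    intro f hf
    obtain ⟨C, _, hC⟩ := cont_bdd f hf R
    refine Integrable.of_bound (hcm f hf).aestronglyMeasurable C (Eventually.of_forall (fun t => ?_))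
    exact int_bdd (μ t) (hsupp t) f hC
  have hpoly : ∀ p : Polynomial ℝ, ∫ x, p.eval x ∂ν = ∫ t, (∫ x, p.eval x ∂(μ t)) ∂P := by
    intro p
    rw [int_poly ν hR' p]
    have h1 : (fun t => ∫ x, p.eval x ∂(μ t)) =
        fun t => ∑ i ∈ Finset.range (p.natDegree + 1), p.coeff i * ∫ x, x ^ i ∂(μ t) := by
      funext t
      exact int_poly (μ t) (hsupp t) p
    rw [h1, integral_finset_sum]
    · refine Finset.sum_congr rfl (fun i _ => ?_)
      rw [integral_const_mul, hmom i]
    · intro i _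
      exact (hint (fun x => x ^ i) (continuous_pow i)).const_mul _
  have hcont : ∀ f : ℝ → ℝ, Continuous f → ∫ x, f x ∂ν = ∫ t, (∫ x, f x ∂(μ t)) ∂P := by
    intro f hf
    obtain ⟨p, hp⟩ := exists_approx f hf (max R R')
    have h1 := tendsto_approx f hf (le_max_right R R') p hp ν hR'
    have h2 : Tendsto (fun n => ∫ t, (∫ x, (p n).eval x ∂(μ t)) ∂P) atTop
        (𝓝 (∫ t, (∫ x, f x ∂(μ t)) ∂P)) := by
      obtain ⟨C, hC0, hC⟩ := cont_bdd f hf (max R R')
      refine tendsto_integral_of_dominated_convergence (fun _ => C + 1)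
        (fun n => (hpm (p n)).aestronglyMeasurable) (integrable_const _) (fun n => ?_) ?_
      · refine Eventually.of_forall (fun t => ?_)
        refine int_bdd (μ t) (hsupp t) _ (fun x hx => ?_)
        have hx' : x ∈ Set.Icc (-(max R R')) (max R R') :=
          ⟨by linarith [hx.1, le_max_left R R'], by linarith [hx.2, le_max_left R R']⟩
        have h3 := hp n x hx'
        have h4 := hC x hx'
        rw [Real.norm_eq_abs] at h4 ⊢
        have h5 : 1 / ((n : ℝ) + 1) ≤ 1 := by
          rw [div_le_one (by positivity)]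
          have : (0 : ℝ) ≤ n := Nat.cast_nonneg n
          linarith
        have h6 : |(p n).eval x| ≤ |(p n).eval x - f x| + |f x| := by
          have := abs_add_le ((p n).eval x - f x) (f x)
          simpa using this
        linarith
      · refine Eventually.of_forall (fun t => ?_)
        exact tendsto_approx f hf (le_max_left R R') p hp (μ t) (hsupp t)
    refine tendsto_nhds_unique h1 ?_
    simp_rw [hpoly]
    exact h2
  have hbc : ∀ n : ℕ, Continuous (fun x : ℝ => 1 / (1 + (n : ℝ) * (x - lam) ^ 2)) := by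
    intro n
    refine Continuous.div continuous_const (by fun_prop) (fun x => ?_)
    positivity
  have h1 := tendsto_bump ν lam
  have h2 : Tendsto (fun n : ℕ => ∫ t, (∫ x, 1 / (1 + (n : ℝ) * (x - lam) ^ 2) ∂(μ t)) ∂P) atTop
      (𝓝 (∫ t, (μ t).real {lam} ∂P)) := by
    refine tendsto_integral_of_dominated_convergence (fun _ => (1 : ℝ))
      (fun n => (hcm _ (hbc n)).aestronglyMeasurable) (integrable_const _) (fun n => ?_) ?_
    · refine Eventually.of_forall (fun t => ?_)
      refine int_bdd (μ t) (hsupp t) _ (fun x hx => ?_)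
      rw [Real.norm_of_nonneg (by positivity)]
      rw [div_le_one (by positivity)]
      have : 0 ≤ (n : ℝ) * (x - lam) ^ 2 := by positivity
      linarith
    · exact Eventually.of_forall (fun t => tendsto_bump (μ t) lam)
  refine tendsto_nhds_unique h1 ?_
  have h3 : (fun n : ℕ => ∫ x, 1 / (1 + (n : ℝ) * (x - lam) ^ 2) ∂ν) =
      fun n : ℕ => ∫ t, (∫ x, 1 / (1 + (n : ℝ) * (x - lam) ^ 2) ∂(μ t)) ∂P := by
    funext n
    exact hcont _ (hbc n)
  rw [h3]
  exact h2

end Pool.Agent.Y523.UG
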